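import Pool.Agent.MP_bd94e8_al.H89.Spec

/-!
Weak positivity of the thin directed covers of the untwisted problem.
-/

set_option autoImplicit false
set_option linter.unusedSectionVars false

namespace Pool.Agent.MP_bd94e8_al.H89

open Module Function

namespace WpA

variable {k F : Type} [Field k] [Field F] [Algebra k F]

/-- Rescaling of a matrix over the small field. -/
noncomputable def resc {T : Type} (ρ : T → F) : Matrix T T k →ₗ[k] Matrix T T F where
  toFun s := Matrix.of fun q p => ρ q * algebraMap k F (s q p) * (ρ p)⁻¹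
  map_add' s s' := by
    ext q p
    simp only [Matrix.of_apply, Matrix.add_apply, map_add]
    ring
  map_smul' c s := by
    ext q p
    simp only [Matrix.of_apply, Matrix.smul_apply, smul_eq_mul, map_mul, RingHom.id_apply,
      Algebra.smul_def]
    ring

theorem resc_apply {T : Type} (ρ : T → F) (s : Matrix T T k) (q p : T) :
    resc ρ s q p = ρ q * algebraMap k F (s q p) * (ρ p)⁻¹ := rfl

theorem rat_le [FiniteDimensional k F] {T : Type} [Fintype T] (ρ : T → F) (hρ : ∀ t, ρ t ≠ 0)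
    (H : Submodule k (Matrix T T F)) (hH : ∀ (c : F), ∀ b ∈ H, c • b ∈ H) :
    finrank k (H.comap (resc ρ)) * finrank k F ≤ finrank k H := by
  classical
  let B := Module.finBasis k F
  let Ψ : (Fin (finrank k F) → H.comap (resc (k := k) ρ)) →ₗ[k] H :=
    { toFun := fun x => ⟨∑ u, B u • resc ρ (x u).1, H.sum_mem fun u _ => hH _ _ (x u).2⟩
      map_add' := fun x y => Subtype.ext (by
        simp only [Pi.add_apply, Submodule.coe_add, map_add, smul_add, Finset.sum_add_distrib])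
      map_smul' := fun c x => Subtype.ext (by
        simp only [Pi.smul_apply, Submodule.coe_smul, map_smul, RingHom.id_apply, Finset.smul_sum]
        exact Finset.sum_congr rfl fun u _ => smul_comm _ _ _) }
  have hinj : Injective Ψ := by
    rw [← LinearMap.ker_eq_bot, LinearMap.ker_eq_bot']
    intro x hx
    have h0 : ∑ u, B u • resc ρ (x u).1 = 0 := congrArg Subtype.val hx
    funext u
    apply Subtype.ext
    ext q p
    have h1 := congrFun (congrFun h0 q) p
    simp only [Matrix.sum_apply, Matrix.smul_apply, smul_eq_mul, resc_apply,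
      Matrix.zero_apply] at h1
    have h2 : ∑ u, (x u).1 q p • B u = 0 := by
      have h3 : ρ q * (∑ u, (x u).1 q p • B u) * (ρ p)⁻¹ = 0 := by
        rw [← h1, Finset.mul_sum, Finset.sum_mul]
        refine Finset.sum_congr rfl fun u _ => ?_
        rw [Algebra.smul_def]
        ring
      rcases mul_eq_zero.1 h3 with h | h
      · exact (mul_eq_zero.1 h).resolve_left (hρ q)
      · exact (inv_ne_zero (hρ p) h).elim
    exact Fintype.linearIndependent_iff.1 B.linearIndependent _ h2 u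
  have := LinearMap.finrank_le_finrank_of_injective hinj
  rw [Module.finrank_pi_fintype] at this
  simpa [mul_comm] using this

theorem ex_lam : ∃ lam : F →ₗ[k] k, lam 1 = 1 :=
  Module.Projective.exists_dual_eq_one k one_ne_zero

theorem ex_rho [FiniteDimensional k F] (lam : F →ₗ[k] k) (Δ : Submodule k F) (h : Δ ≠ ⊤) :
    ∃ r : F, r ≠ 0 ∧ ∀ c ∈ Δ, lam (r * c) = 0 := by
  let Φ : F →ₗ[k] Module.Dual k Δ :=
    ((LinearMap.mul k F).compr₂ lam).compl₂ Δ.subtype
  have hlt : finrank k (Module.Dual k Δ) < finrank k F := by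
    rw [Subspace.dual_finrank_eq]
    exact Submodule.finrank_lt h
  obtain ⟨r, hr, hr0⟩ := (Submodule.ne_bot_iff _).1 (LinearMap.ker_ne_bot_of_finrank_lt (f := Φ) hlt)
  refine ⟨r, hr0, fun c hc => ?_⟩
  exact LinearMap.congr_fun (LinearMap.mem_ker.1 hr) ⟨c, hc⟩

theorem gauge {I : Type} (rk : I → ℕ) (su : I → I → F → Prop)
    (hu : ∀ a b c b' c', su a b c → su a b' c' → b = b' ∧ c = c')
    (hrk : ∀ a b c, su a b c → rk b < rk a) (hc : ∀ a b c, su a b c → c ≠ 0) :
    ∃ ν : I → F, (∀ a, ν a ≠ 0) ∧ ∀ a b c, su a b c → ν a = c * ν b := by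
  classical
  have wf : WellFounded (InvImage (· < ·) rk) := InvImage.wf rk wellFounded_lt
  let G : (a : I) → ((b : I) → InvImage (· < ·) rk b a → F) → F := fun a f =>
    if h : ∃ x : I × F, su a x.1 x.2 then h.choose.2 * f h.choose.1 (hrk _ _ _ h.choose_spec) else 1
  have eq : ∀ a, wf.fix G a = G a fun b _ => wf.fix G b := wf.fix_eq G
  have key : ∀ a b c, su a b c → wf.fix G a = c * wf.fix G b := by
    intro a b c h
    have h' : ∃ x : I × F, su a x.1 x.2 := ⟨(b, c), h⟩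
    obtain ⟨e1, e2⟩ := hu _ _ _ _ _ h'.choose_spec h
    rw [eq a]
    simp only [G, dif_pos h']
    rw [e1, e2]
  refine ⟨wf.fix G, fun a => ?_, key⟩
  induction a using wf.induction with
  | _ a ih =>
    by_cases h : ∃ x : I × F, su a x.1 x.2
    · obtain ⟨x, hx⟩ := h
      rw [key _ _ _ hx]
      exact mul_ne_zero (hc _ _ _ hx) (ih _ (hrk _ _ _ hx))
    · rw [eq a]
      simp only [G, dif_neg h]
      exact one_ne_zero

/-- The functional applied to the rescaled entries. -/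
noncomputable def Lam {T : Type} (lam : F →ₗ[k] k) (ρ : T → F) :
    Matrix T T F →+ Matrix T T F where
  toFun h := Matrix.of fun q p => ρ q * algebraMap k F (lam ((ρ q)⁻¹ * h q p * ρ p)) * (ρ p)⁻¹
  map_zero' := by
    ext q p
    simp
  map_add' h h' := by
    ext q p
    simp only [Matrix.of_apply, Matrix.add_apply, mul_add, add_mul, map_add]

theorem Lam_apply {T : Type} (lam : F →ₗ[k] k) (ρ : T → F) (h : Matrix T T F) (q p : T) :
    Lam lam ρ h q p = ρ q * algebraMap k F (lam ((ρ q)⁻¹ * h q p * ρ p)) * (ρ p)⁻¹ := rfl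

theorem Lam_zero {T : Type} (lam : F →ₗ[k] k) (ρ : T → F) {h : Matrix T T F} {q p : T}
    (e : h q p = 0) : Lam lam ρ h q p = 0 := by
  rw [Lam_apply, e]
  simp

section thin
variable {T I : Type} [Fintype T] [DecidableEq T] {vt : T → I} {R : Set (Matrix T T F)}

theorem Lam_one (hR : Thin vt R) (lam : F →ₗ[k] k) (ρ : T → F) {h : Matrix T T F} (hh : h ∈ R)
    (a : T × T) (ha : ∀ q p, h q p ≠ 0 → (p, q) = a) : Lam lam ρ h ∈ R := by
  have : Lam lam ρ h = (Lam lam ρ h a.2 a.1 * (h a.2 a.1)⁻¹) • h := by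
    ext q p
    by_cases e : h q p = 0
    · rw [Lam_zero lam ρ e, Matrix.smul_apply, e, smul_zero]
    · obtain rfl := ha q p e
      rw [Matrix.smul_apply, smul_eq_mul, inv_mul_cancel_right₀ e]
  rw [this]
  exact hR.smul _ _ hh

theorem Lam_mem (hR : Thin vt R) (lam : F →ₗ[k] k) (ρ : T → F) (hρ : ∀ t, ρ t ≠ 0)
    (hn : ∀ a b, Tie vt R a b → ∀ h ∈ R, Sup2 h a b →
      (ρ a.2)⁻¹ * h a.2 a.1 * ρ a.1 = (ρ b.2)⁻¹ * h b.2 b.1 * ρ b.1 ∨
      (ρ a.2)⁻¹ * h a.2 a.1 * ρ a.1 = -((ρ b.2)⁻¹ * h b.2 b.1 * ρ b.1))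
    {r : Matrix T T F} (hr : r ∈ R) : Lam lam ρ r ∈ R := by
  refine AddSubmonoid.closure_induction (motive := fun x _ => Lam lam ρ x ∈ R) ?_ ?_ ?_
    (hR.span r hr)
  · rintro h ⟨hh, a, b, e1, e2, -, hs⟩
    by_cases ha : h a.2 a.1 = 0
    · refine Lam_one hR lam ρ hh b fun q p e => (hs q p e).resolve_left ?_
      rintro rfl
      exact e ha
    by_cases hb : h b.2 b.1 = 0
    · refine Lam_one hR lam ρ hh a fun q p e => (hs q p e).resolve_right ?_
      rintro rfl
      exact e hb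
    by_cases hab : a = b
    · exact Lam_one hR lam ρ hh a fun q p e => (hs q p e).elim id fun x => x.trans hab.symm
    by_cases h1 : Matrix.single a.2 a.1 (1 : F) ∈ R
    · have m1 : h a.2 a.1 • Matrix.single a.2 a.1 (1 : F) ∈ R := hR.smul _ _ h1
      have m2 : h + (-h a.2 a.1) • Matrix.single a.2 a.1 (1 : F) ∈ R :=
        hR.add _ hh _ (hR.smul _ _ h1)
      have e : h = h a.2 a.1 • Matrix.single a.2 a.1 (1 : F) +
          (h + (-h a.2 a.1) • Matrix.single a.2 a.1 (1 : F)) := by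
        rw [neg_smul]
        abel
      rw [e, map_add]
      refine hR.add _ (Lam_one hR lam ρ m1 a fun q p hx => ?_) _
        (Lam_one hR lam ρ m2 b fun q p hx => ?_)
      · by_contra hne
        apply hx
        rw [Matrix.smul_apply, Matrix.single_apply_of_ne, smul_zero]
        rintro ⟨rfl, rfl⟩
        exact hne rfl
      · by_cases hpa : (p, q) = a
        · subst hpa
          simp at hx
        · refine (hs q p fun e0 => hx ?_).resolve_left hpa
          rw [Matrix.add_apply, e0, Matrix.smul_apply, Matrix.single_apply_of_ne, smul_zero,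
            add_zero]
          rintro ⟨rfl, rfl⟩
          exact hpa rfl
    have ht : Tie vt R a b := ⟨hab, e1, e2, h1, h, hh, ha, hb, hs⟩
    have hx : (ρ a.2)⁻¹ * h a.2 a.1 * ρ a.1 ≠ 0 :=
      mul_ne_zero (mul_ne_zero (inv_ne_zero (hρ _)) ha) (hρ _)
    have key : ∀ q p, (ρ q)⁻¹ * h q p * ρ p = (ρ a.2)⁻¹ * h a.2 a.1 * ρ a.1 ∨
        (ρ q)⁻¹ * h q p * ρ p = -((ρ a.2)⁻¹ * h a.2 a.1 * ρ a.1) →
        Lam lam ρ h q p = (algebraMap k F (lam ((ρ a.2)⁻¹ * h a.2 a.1 * ρ a.1)) *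
          ((ρ a.2)⁻¹ * h a.2 a.1 * ρ a.1)⁻¹) * h q p := by
      intro q p hq
      have hq' : h q p = ρ q * ((ρ q)⁻¹ * h q p * ρ p) * (ρ p)⁻¹ := by
        have := hρ q
        have := hρ p
        field_simp
      rw [Lam_apply]
      generalize (ρ a.2)⁻¹ * h a.2 a.1 * ρ a.1 = x at hx hq ⊢
      rcases hq with hq | hq
      · rw [hq] at hq' ⊢
        rw [hq']
        field_simp
      · rw [hq] at hq' ⊢
        rw [hq', map_neg, map_neg]
        field_simp
    have : Lam lam ρ h = (algebraMap k F (lam ((ρ a.2)⁻¹ * h a.2 a.1 * ρ a.1)) *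
        ((ρ a.2)⁻¹ * h a.2 a.1 * ρ a.1)⁻¹) • h := by
      ext q p
      rw [Matrix.smul_apply, smul_eq_mul]
      by_cases e : h q p = 0
      · rw [Lam_zero lam ρ e, e, mul_zero]
      · rcases hs q p e with rfl | rfl
        · exact key _ _ (Or.inl rfl)
        · refine key _ _ ?_
          rcases hn _ _ ht h hh hs with e' | e'
          · exact Or.inl e'.symm
          · exact Or.inr (by rw [e', neg_neg])
    rw [this]
    exact hR.smul _ _ hh
  · rw [map_zero]
    exact hR.zero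
  · intro x y _ _ hx hy
    rw [map_add]
    exact hR.add _ hx _ hy

end thin

section cover
variable {Pt ι Ω T I O : Type} [Fintype Pt] [DecidableEq Pt] [Fintype T] [DecidableEq T]

/-- The lift of a matrix to a block of a cover. -/
noncomputable def lift (J : Prob k F T I O) (π : T → Pt) (i j : I) (b : Matrix Pt Pt F) :
    Matrix T T F :=
  mask (fun t' t => J.vt t = i ∧ J.vt t' = j ∧ J.pk t' = J.pk t) (b.submatrix π π)

theorem lift_pos (J : Prob k F T I O) (π : T → Pt) {i j : I} (b : Matrix Pt Pt F) {t' t : T}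
    (h : J.vt t = i ∧ J.vt t' = j ∧ J.pk t' = J.pk t) : lift J π i j b t' t = b (π t') (π t) :=
  mask_pos (s := fun t' t => J.vt t = i ∧ J.vt t' = j ∧ J.pk t' = J.pk t) _ h

theorem lift_neg (J : Prob k F T I O) (π : T → Pt) {i j : I} (b : Matrix Pt Pt F) {t' t : T}
    (h : ¬ (J.vt t = i ∧ J.vt t' = j ∧ J.pk t' = J.pk t)) : lift J π i j b t' t = 0 :=
  mask_neg (s := fun t' t => J.vt t = i ∧ J.vt t' = j ∧ J.pk t' = J.pk t) _ h

theorem lift_mem {J : Prob k F T I O} {P : Prob k F Pt ι Ω} {π : T → Pt} (hc : Cover J P π)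
    {b : Matrix Pt Pt F} (hb : b ∈ P.B) (i j : I) : lift J π i j b ∈ J.B := by
  refine (hc.mem _).2 ⟨fun t' t h => (mask_ne h).1.2.2, fun i' j' => ?_⟩
  by_cases e : i' = i ∧ j' = j
  · obtain ⟨rfl, rfl⟩ := e
    obtain ⟨h', hh', e⟩ := hc.homog b hb i' j'
    refine ⟨h', hh', fun t t' ht ht' => ?_⟩
    by_cases hp : J.pk t' = J.pk t
    · rw [lift_pos J π b ⟨ht, ht', hp⟩, (e t t' ht ht').1 hp]
    · rw [lift_neg J π b fun h => hp h.2.2, (e t t' ht ht').2 hp]
  · refine ⟨0, P.B.zero_mem, fun t t' ht ht' => ?_⟩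
    rw [lift_neg J π b fun h => e ⟨ht.symm.trans h.1, ht'.symm.trans h.2.1⟩]
    rfl

end cover

variable {Pt ι : Type} [Fintype Pt] [DecidableEq Pt] {Q Qu : Prob k F Pt ι Unit} {ht : Pt → ℕ}

theorem r0_mem (hU : IsUntw Q Qu) {r : Matrix Pt Pt F} (hr : r ∈ Q.R0) : r ∈ Qu.B :=
  (hU.2 r).2 ⟨0, by simpa using hr⟩

theorem ar_r0 (hF : Flag Q ∅ ht) {p q : Pt} (e : Q.vt p = Q.vt q) (h : Q.Ar p q) :
    ∃ r ∈ Q.R0, r q p ≠ 0 := by
  obtain ⟨hne, b, hb, h0⟩ := h
  have h1 : ht p < ht q := lt_of_le_of_ne (hF.tri b hb q p e.symm (by simp) h0)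
    fun h => hne (hF.inj p q e (by simp) h)
  obtain ⟨c, hc, h2, h3⟩ := hF.step p q e (by simp) h1
  refine ⟨Q.blk (Q.vt p) (Q.vt p) c, ⟨(Q.blk_mem hc _ _).1, fun x => ?_⟩, ?_⟩
  · by_cases hx : Q.vt x = Q.vt p
    · rw [Q.blk_pos c hx hx, hF.diag c hc x p hx (by simp), h3]
    · exact Q.blk_neg c fun h => hx h.1
  · rwa [Q.blk_pos c rfl e.symm]

theorem wp1 [FiniteDimensional k F] (hN : SNorm) (hF : Flag Q ∅ ht) (hT : Tws Q) (hH : Hyp Q.B)
    (hU : IsUntw Q Qu) {T I O : Type} [Fintype T] [DecidableEq T] [Fintype I] [Fintype O]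
    {J : Prob k F T I O} {π : T → Pt} {L : ℕ} (hc : Cover J Qu π) (hJ : ThinDir J L) : J.WP := by
  classical
  obtain ⟨lam, hlam⟩ := ex_lam (k := k) (F := F)
  obtain ⟨ρ₀, hρ₀, hn₀⟩ := hN k F T I O J L hJ
  obtain ⟨rk, hrk⟩ := hJ.rk
  have hvt : ∀ t t', J.vt t = J.vt t' → Q.vt (π t) = Q.vt (π t') := fun t t' h => by
    rw [← hU.1]
    exact hc.vt_eq t t' h
  have h2 : ∀ X, ¬ (∀ c : F, c • Q.e X ∈ Q.B) → ∃ (p q : Pt) (r : F), Q.vt p = X ∧ Q.vt q = X ∧
      Q.Ar p q ∧ r ≠ 0 ∧ ∀ b ∈ Q.H X X, ∃ c, lam (r * c) = 0 ∧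
        b - b p p • Q.e X - Matrix.single q p c ∈ Q.R0 := by
    intro X hX
    obtain ⟨p, q, Δ, hp, hq, har, hΔ, hb⟩ := (hT X).resolve_left hX
    obtain ⟨r, hr, hr'⟩ := ex_rho lam Δ hΔ
    refine ⟨p, q, r, hp, hq, har, hr, fun b hb' => ?_⟩
    obtain ⟨c, hc, h⟩ := hb b hb'
    exact ⟨c, hr' c hc, h⟩
  choose p q r hp hq har hr hdec using h2
  obtain ⟨ν, hν, hsu⟩ := gauge (F := F) rk (fun a b c => ∃ t t' X hX, J.vt t = a ∧ J.vt t' = b ∧
      π t = p X hX ∧ π t' = q X hX ∧ J.pk t' = J.pk t ∧ c = r X hX * ρ₀ t' * (ρ₀ t)⁻¹)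
    (by
      rintro a b c b' c' ⟨t, t', X, hX, rfl, rfl, e1, e2, e3, rfl⟩
        ⟨s, s', Y, hY, e0, rfl, f1, f2, f3, rfl⟩
      obtain rfl : X = Y := by rw [← hp X hX, ← hp Y hY, ← e1, ← f1, hvt _ _ e0]
      obtain rfl : s = t := hc.inj _ _ e0 (f1.trans e1.symm)
      obtain rfl : s' = t' := hc.uniq _ _ (f2.trans e2.symm) (f3.trans e3.symm)
      exact ⟨rfl, rfl⟩)
    (by
      rintro a b c ⟨t, t', X, hX, rfl, rfl, e1, e2, e3, rfl⟩
      obtain ⟨x, hx, h0⟩ := ar_r0 hF ((hp X hX).trans (hq X hX).symm) (har X hX)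
      refine hrk _ (lift_mem hc (r0_mem hU hx) (J.vt t) (J.vt t')) t' t ?_ fun h => ?_
      · rwa [lift_pos J π x ⟨rfl, rfl, e3⟩, e1, e2]
      · obtain rfl := hJ.dist _ _ h e3
        exact (har X hX).1 (e1.symm.trans e2))
    (by
      rintro a b c ⟨t, t', X, hX, -, -, -, -, -, rfl⟩
      exact mul_ne_zero (mul_ne_zero (hr X hX) (hρ₀ _)) (inv_ne_zero (hρ₀ _)))
  obtain ⟨ρ, hρe⟩ : ∃ ρ : T → F, ∀ t, ρ t = ρ₀ t * ν (J.vt t) := ⟨_, fun _ => rfl⟩
  have hρ : ∀ t, ρ t ≠ 0 := fun t => by rw [hρe]; exact mul_ne_zero (hρ₀ t) (hν _)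
  have hrat : ∀ X hX t t', π t = p X hX → π t' = q X hX → J.pk t' = J.pk t →
      ρ t = r X hX * ρ t' := by
    intro X hX t t' e1 e2 e3
    rw [hρe, hρe, hsu _ _ _ ⟨t, t', X, hX, rfl, rfl, e1, e2, e3, rfl⟩]
    have := hρ₀ t
    field_simp
  have hLam : ∀ x ∈ J.R0, Lam lam ρ x ∈ J.R0 := fun x hx => by
    refine Lam_mem hJ.thin lam ρ hρ (fun a b hab h hh hs => ?_) hx
    have e : ∀ a : T × T, (ρ a.2)⁻¹ * h a.2 a.1 * ρ a.1 =
        (ρ₀ a.2)⁻¹ * h a.2 a.1 * ρ₀ a.1 * ((ν (J.vt a.2))⁻¹ * ν (J.vt a.1)) := fun a => by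
      rw [hρe, hρe, mul_inv]
      ring
    rw [e a, e b, hab.2.1, hab.2.2.1]
    rcases hn₀ a b hab h hh hs with e' | e'
    · exact Or.inl (by rw [e'])
    · exact Or.inr (by rw [e', neg_mul])
  have hmain : ∀ b ∈ Q.B, ∀ i j, Lam lam ρ (lift J π i j b) ∈ J.B := by
    intro b hb i j
    obtain ⟨t₀, rfl⟩ := hJ.surj i
    obtain ⟨t₁, rfl⟩ := hJ.surj j
    by_cases hij : J.vt t₀ = J.vt t₁
    · have : Lam lam ρ (lift J π (J.vt t₀) (J.vt t₁) b) =
          algebraMap k F (lam (b (π t₀) (π t₀))) • J.e (J.vt t₀) := by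
        ext t' t
        rw [Matrix.smul_apply, smul_eq_mul]
        by_cases h : J.vt t = J.vt t₀ ∧ J.vt t' = J.vt t₁ ∧ J.pk t' = J.pk t
        · obtain rfl : t' = t := hJ.dist _ _ (h.2.1.trans (hij.symm.trans h.1.symm)) h.2.2
          rw [Lam_apply, lift_pos J π b h, J.e_pos _ h.1, Matrix.one_apply_eq,
            hF.diag b hb _ _ (hvt _ _ h.1) (by simp)]
          have := hρ t'
          have e : (ρ t')⁻¹ * b (π t₀) (π t₀) * ρ t' = b (π t₀) (π t₀) := by field_simp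
          rw [e]
          field_simp
        · rw [Lam_zero lam ρ (lift_neg J π b h)]
          by_cases h' : t' = t
          · subst h'
            rw [J.e_neg _ fun x => h ⟨x, x.trans hij, rfl⟩, mul_zero]
          · rw [J.e_off _ h', mul_zero]
      rw [this]
      exact hJ.scal _ _ (J.e_mem _)
    have hex : ∃ x ∈ Q.R0, ∀ t t', J.vt t = J.vt t₀ → J.vt t' = J.vt t₁ → J.pk t' = J.pk t →
        lam ((ρ t')⁻¹ * b (π t') (π t) * ρ t) = lam ((ρ t')⁻¹ * x (π t') (π t) * ρ t) := by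
      have hne : ∀ t t', J.vt t = J.vt t₀ → J.vt t' = J.vt t₁ → J.pk t' = J.pk t →
          π t' ≠ π t := fun t t' e1 e2 e3 h => by
        obtain rfl := hc.uniq _ _ h e3
        exact hij (e1.symm.trans e2)
      by_cases hXY : Q.vt (π t₀) = Q.vt (π t₁)
      · have hb1 := Q.blk_mem hb (Q.vt (π t₀)) (Q.vt (π t₀))
        by_cases hX : ∀ c : F, c • Q.e (Q.vt (π t₀)) ∈ Q.B
        · refine ⟨Q.blk (Q.vt (π t₀)) (Q.vt (π t₀)) b - b (π t₀) (π t₀) • Q.e (Q.vt (π t₀)),
            ⟨Q.B.sub_mem hb1.1 (hX _), fun x => ?_⟩, fun t t' e1 e2 e3 => ?_⟩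
          · rw [Matrix.sub_apply, Matrix.smul_apply, smul_eq_mul]
            by_cases hx : Q.vt x = Q.vt (π t₀)
            · rw [Q.blk_pos b hx hx, Q.e_pos _ hx, Matrix.one_apply_eq, mul_one,
                hF.diag b hb _ _ hx (by simp), sub_self]
            · rw [Q.blk_neg b fun h => hx h.1, Q.e_neg _ hx, mul_zero, sub_self]
          · rw [Matrix.sub_apply, Matrix.smul_apply, Q.e_off _ (hne t t' e1 e2 e3), smul_zero,
              sub_zero, Q.blk_pos b (hvt _ _ e1) ((hvt _ _ e2).trans hXY.symm)]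
        · obtain ⟨c, hc0, hc1⟩ := hdec _ hX _ hb1
          refine ⟨_, hc1, fun t t' e1 e2 e3 => ?_⟩
          rw [Matrix.sub_apply, Matrix.sub_apply, Matrix.smul_apply,
            Q.e_off _ (hne t t' e1 e2 e3), smul_zero,
            sub_zero, Q.blk_pos b (hvt _ _ e1) ((hvt _ _ e2).trans hXY.symm)]
          by_cases h : q _ hX = π t' ∧ p _ hX = π t
          · have e4 := hrat _ hX t t' h.2.symm h.1.symm e3
            rw [h.1, h.2, Matrix.single_apply_same, mul_sub, sub_mul, map_sub]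
            have e5 : (ρ t')⁻¹ * c * ρ t = r _ hX * c := by
              rw [e4]
              have := hρ t'
              field_simp
            rw [e5, hc0, sub_zero]
          · rw [Matrix.single_apply_of_ne _ _ _ _ _ h, sub_zero]
      · refine ⟨Q.blk (Q.vt (π t₀)) (Q.vt (π t₁)) b, ⟨(Q.blk_mem hb _ _).1, fun x =>
          Q.blk_neg b fun h => hXY (h.1.symm.trans h.2)⟩, fun t t' e1 e2 _ => ?_⟩
        rw [Q.blk_pos b (hvt _ _ e1) (hvt _ _ e2)]
    obtain ⟨x, hx, e⟩ := hex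
    have : Lam lam ρ (lift J π (J.vt t₀) (J.vt t₁) b) =
        Lam lam ρ (lift J π (J.vt t₀) (J.vt t₁) x) := by
      ext t' t
      by_cases h : J.vt t = J.vt t₀ ∧ J.vt t' = J.vt t₁ ∧ J.pk t' = J.pk t
      · rw [Lam_apply, Lam_apply, lift_pos J π b h, lift_pos J π x h, e t t' h.1 h.2.1 h.2.2]
      · rw [Lam_zero lam ρ (lift_neg J π b h), Lam_zero lam ρ (lift_neg J π x h)]
    rw [this]
    exact (hLam _ ⟨lift_mem hc (r0_mem hU hx) _ _, fun t =>
      lift_neg J π x fun h => hij (h.1.symm.trans h.2.1)⟩).1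
  let α : Matrix Pt T F := Matrix.of fun x t => if x = π t then ρ t else 0
  let γ : Matrix T Pt F := Matrix.of fun t x => if x = π t then (ρ t)⁻¹ else 0
  have hγα : ∀ (b : Matrix Pt Pt F) t' t, (γ * b * α) t' t = (ρ t')⁻¹ * b (π t') (π t) * ρ t := by
    intro b t' t
    simp [Matrix.mul_apply, α, γ]
  intro d v hdv
  have h1 := hH k lam hlam T I O J.vt J.pk hJ.surj α γ (fun t t' h => by
      have := hγα 1 t t'
      rw [Matrix.mul_one] at this
      rw [this]
      by_cases e : t = t'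
      · subst e
        rw [Matrix.one_apply_eq, Matrix.one_apply_eq, mul_one, inv_mul_cancel₀ (hρ t)]
      · rw [Matrix.one_apply_ne e, Matrix.one_apply_ne fun x => e (hc.inj _ _ h x), mul_zero,
          zero_mul])
    (fun i j => (J.H i j).comap (resc ρ)) (fun i j b hb => by
      have : resc ρ (mask (fun t' t => J.vt t = i ∧ J.vt t' = j ∧ J.pk t' = J.pk t)
          ((γ * b * α).map lam)) = Lam lam ρ (lift J π i j b) := by
        ext t' t
        rw [resc_apply]
        by_cases h : J.vt t = i ∧ J.vt t' = j ∧ J.pk t' = J.pk t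
        · rw [mask_pos (s := fun t' t => J.vt t = i ∧ J.vt t' = j ∧ J.pk t' = J.pk t) _ h,
            Matrix.map_apply, hγα, Lam_apply, lift_pos J π b h]
        · rw [mask_neg (s := fun t' t => J.vt t = i ∧ J.vt t' = j ∧ J.pk t' = J.pk t) _ h,
            Lam_zero lam ρ (lift_neg J π b h), map_zero, mul_zero, zero_mul]
      rw [Submodule.mem_comap, this]
      refine ⟨hmain b hb i j, fun t' t h => ?_⟩
      by_contra hn
      exact h (Lam_zero lam ρ (lift_neg J π b fun x => hn ⟨x.1, x.2.1⟩))) d v hdv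
  rw [Module.finrank_self, mul_one, mul_one] at h1
  refine lt_of_lt_of_le (mul_lt_mul_of_pos_right h1 Module.finrank_pos) ?_
  rw [add_mul]
  refine Nat.add_le_add_left ?_ _
  rw [Finset.sum_mul]
  refine Finset.sum_le_sum fun i _ => ?_
  rw [Finset.sum_mul]
  refine Finset.sum_le_sum fun j _ => ?_
  rw [mul_assoc]
  refine Nat.mul_le_mul_left _ (rat_le ρ hρ _ fun c b hb => ⟨hJ.scal c b hb.1, fun t' t h => ?_⟩)
  exact hb.2 t' t fun e => h (by rw [Matrix.smul_apply, e, smul_zero])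

end WpA

/-- Weak positivity of the covers of windows. -/
theorem wp (hN : SNorm) (hC : SCov1) : SWP := by
  intro k F _ _ _ _ Pt ι _ _ _ Q Qu ht hF hT hH hU T I O _ _ _ _ J π L hc _ T' I' O' _ _ _ _ J' π'
    hc' hJ'
  exact WpA.wp1 hN hF hT hH hU ((hC k F Pt ι Unit Qu T I O J π hc).1 T' I' O' J' π' hc') hJ'

end Pool.Agent.MP_bd94e8_al.H89
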